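import Mathlib

set_option linter.unusedSectionVars false
set_option linter.unusedVariables false
set_option linter.dupNamespace false

namespace Pool.Agent.H.MP_c4c6a0_pr

open Finset

variable {d : ℕ}

/-- Move from `v`: symbol `0` goes to the parent, symbol `i + 1` to child number `i`. -/
def mv (v : List (Fin d)) (r : Fin (d + 1)) : List (Fin d) := Fin.cases v.tail (fun i => i :: v) r

/-- One step: the state is the position and the number of departures from each vertex. -/
def step (a : List (Fin d) → ℕ → Fin (d + 1)) (s : List (Fin d) × (List (Fin d) → ℕ)) :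
    List (Fin d) × (List (Fin d) → ℕ) :=
  (mv s.1 (a s.1 (s.2 s.1)), Function.update s.2 s.1 (s.2 s.1 + 1))

/-- Position of the walk at time `t`. -/
def pos (a : List (Fin d) → ℕ → Fin (d + 1)) (t : ℕ) : List (Fin d) :=
  ((step a)^[t] ([], fun _ => 0)).1

/-- The walk visits the root infinitely often. -/
def Rec (a : List (Fin d) → ℕ → Fin (d + 1)) : Prop := {t | pos a t = []}.Infinite

def dep (a : List (Fin d) → ℕ → Fin (d + 1)) (t : ℕ) : List (Fin d) → ℕ :=
  ((step a)^[t] ([], fun _ => 0)).2

def cn (b : ℕ → Fin (d + 1)) (r : Fin (d + 1)) (n : ℕ) : ℕ := Nat.count (fun x => b x = r) n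

noncomputable def pp (b : ℕ → Fin (d + 1)) (k : ℕ) : ℕ := sInf {n | k ≤ cn b 0 n}

noncomputable def ty (a : List (Fin d) → ℕ → Fin (d + 1)) (k : ℕ) : List (Fin d) → ℕ
  | [] => k
  | i :: u => cn (a u) i.succ (pp (a u) (ty a k u))

def Zi (b : ℕ → Fin (d + 1)) : Prop := ∀ k, ∃ n, k ≤ cn b 0 n

variable {a : List (Fin d) → ℕ → Fin (d + 1)} {b : ℕ → Fin (d + 1)} {k n t : ℕ} {r : Fin (d + 1)}

lemma cn_s (b : ℕ → Fin (d + 1)) (r : Fin (d + 1)) (n : ℕ) :
    cn b r (n + 1) = cn b r n + if b n = r then 1 else 0 := Nat.count_succ _ _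
lemma cn_m (b : ℕ → Fin (d + 1)) (r : Fin (d + 1)) : Monotone (cn b r) := Nat.count_monotone _
lemma cn_0 : cn b r 0 = 0 := rfl
lemma pp_0 : pp b 0 = 0 := by simp [pp]

lemma lt_pp (h : Zi b) : n < pp b k ↔ cn b 0 n < k := by
  refine ⟨fun h' => not_le.1 (Nat.notMem_of_lt_sInf (s := {n | k ≤ cn b 0 n}) h'), fun h' => not_le.1 fun h2 => ?_⟩
  exact h'.not_ge (le_trans (Nat.sInf_mem (s := {n | k ≤ cn b 0 n}) (h k)) (cn_m b 0 h2))

lemma cn_pp (h : Zi b) : cn b 0 (pp b k) = k := by
  refine le_antisymm ?_ (Nat.sInf_mem (s := {n | k ≤ cn b 0 n}) (h k))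
  rcases e : pp b k with _ | m
  · simp [cn_0]
  · have := (lt_pp (n := m) (k := k) h).1 (by omega)
    rw [cn_s]; split_ifs <;> omega

lemma cn_sum (b : ℕ → Fin (d + 1)) (n : ℕ) : cn b 0 n + ∑ i : Fin d, cn b i.succ n = n := by
  rw [← Fin.sum_univ_succ (fun r => cn b r n)]
  induction n with
  | zero => simp [cn_0]
  | succ n ih => simp [cn_s, sum_add_distrib, ih]

lemma pos_s : pos a (t + 1) = mv (pos a t) (a (pos a t) (dep a t (pos a t))) := by
  simp only [pos, dep, Function.iterate_succ_apply', step]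
lemma dep_s : dep a (t + 1) = Function.update (dep a t) (pos a t) (dep a t (pos a t) + 1) := by
  simp only [pos, dep, Function.iterate_succ_apply', step]
lemma dep_s' (v : List (Fin d)) : dep a (t + 1) v = dep a t v + if v = pos a t then 1 else 0 := by
  rw [dep_s, Function.update_apply]; split_ifs with h <;> simp [h]

lemma cn_dep (v : List (Fin d)) : cn (a v) r (dep a (t + 1) v) = cn (a v) r (dep a t v) +
    if v = pos a t ∧ a (pos a t) (dep a t (pos a t)) = r then 1 else 0 := by
  rw [dep_s']
  by_cases h : v = pos a t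
  · subst h; simp [cn_s]
  · simp [h]

lemma flow (i : Fin d) (u : List (Fin d)) : cn (a u) i.succ (dep a t u) =
    cn (a (i :: u)) 0 (dep a t (i :: u)) + if i :: u <:+ pos a t then 1 else 0 := by
  induction t with
  | zero => simp [dep, pos, cn_0]
  | succ t ih =>
    rw [cn_dep, cn_dep, ih, pos_s]
    generalize a (pos a t) (dep a t (pos a t)) = r
    generalize pos a t = x
    have n1 : ¬ i :: u <:+ u := fun h => by simpa using h.length_le
    refine Fin.cases ?_ (fun j => ?_) r
    · rcases x with _ | ⟨j, y⟩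
      · simp [mv, (Fin.succ_ne_zero _).symm]
      · by_cases h : i :: u = j :: y
        · obtain ⟨rfl, rfl⟩ := List.cons.inj h
          simp [mv, (Fin.succ_ne_zero _).symm, n1]
        · simp [mv, (Fin.succ_ne_zero _).symm, List.suffix_cons_iff, h]
    · by_cases h : i :: u = j :: x
      · obtain ⟨rfl, rfl⟩ := List.cons.inj h
        simp [mv, n1]
      · have : ¬ (u = x ∧ j = i) := fun h' => h (by rw [h'.1, h'.2])
        simp [mv, List.suffix_cons_iff, h, this]

lemma ty_0 {v : List (Fin d)} (h : ∀ v : List (Fin d), v.length = n → ty a k v = 0)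
    (hv : n ≤ v.length) : ty a k v = 0 := by
  induction v with
  | nil => exact h _ (le_antisymm (Nat.zero_le _) hv)
  | cons i u ih =>
    rcases hv.eq_or_lt with e | e
    · exact h _ e.symm
    · rw [ty, ih (by simpa [Nat.lt_succ_iff] using e), pp_0, cn_0]

lemma dep_le (v : List (Fin d)) {T : ℕ} (h : ∀ t ≥ T, pos a t ≠ v) : dep a t v ≤ T := by
  suffices dep a t v ≤ min t T from this.trans (min_le_right _ _)
  induction t with
  | zero => simp [dep]
  | succ t ih =>
    rw [dep_s']
    split_ifs with e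
    · have : t < T := not_le.1 fun h' => h t h' e.symm
      omega
    · omega

theorem rec_of (hz : ∀ v, Zi (a v)) (h : ∀ k, ∃ n, ∀ v : List (Fin d), v.length = n → ty a k v = 0) :
    Rec a := by
  intro hf
  obtain ⟨T, hT⟩ := hf.bddAbove
  have hT' : ∀ t ≥ T + 1, pos a t ≠ [] := fun t ht e => by have := hT e; omega
  obtain ⟨n, hn⟩ := h (T + 2)
  have k1 : ∀ t, (∀ v, dep a t v ≤ pp (a v) (ty a (T + 2) v)) →
      dep a t (pos a t) < pp (a (pos a t)) (ty a (T + 2) (pos a t)) := fun t H => by
    rw [lt_pp (hz _)]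
    rcases e : pos a t with _ | ⟨i, u⟩
    · exact (le_trans (Nat.count_le _) (dep_le _ hT')).trans_lt (by simp [ty])
    · have := flow (a := a) (t := t) i u
      rw [e, if_pos List.suffix_rfl] at this
      have := cn_m (a u) i.succ (H u)
      rw [ty]; omega
  have k2 : ∀ t v, dep a t v ≤ pp (a v) (ty a (T + 2) v) := fun t => by
    induction t with
    | zero => simp [dep]
    | succ t ih =>
      intro v
      rw [dep_s']
      split_ifs with e
      · subst e; exact k1 t ih
      · exact ih v
  have F := List.finite_length_lt (Fin d) n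
  have k3 : ∀ t, ∑ v ∈ F.toFinset, dep a t v = t := fun t => by
    induction t with
    | zero => simp [dep]
    | succ t ih =>
      have : (pos a t).length < n := not_le.1 fun h' => by
        simpa [ty_0 hn h', pp_0] using k1 t (k2 t)
      simp [dep_s', sum_add_distrib, ih, this]
  have := sum_le_sum fun v (_ : v ∈ F.toFinset) =>
    k2 (∑ v ∈ F.toFinset, pp (a v) (ty a (T + 2) v) + 1) v
  rw [k3] at this
  omega

lemma len_le : (pos a t).length ≤ t := by
  induction t with
  | zero => simp [pos]
  | succ t ih =>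
    rw [pos_s]
    refine Fin.cases ?_ (fun j => ?_) (a (pos a t) (dep a t (pos a t))) <;> simp [mv] <;> omega

lemma dep_0 {v : List (Fin d)} (h : t ≤ v.length) : dep a t v = 0 := by
  induction t with
  | zero => rfl
  | succ t ih =>
    rw [dep_s', ih (by omega), if_neg fun e => by have := len_le (a := a) (t := t); rw [← e] at this; omega]

theorem of_rec (hz : ∀ v, Zi (a v)) (h : Rec a) (k : ℕ) :
    ∃ n, ∀ v : List (Fin d), v.length = n → ty a k v = 0 := by
  have mo : Monotone fun t => dep a t [] := monotone_nat_of_le_succ fun t => by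
    simp only [dep_s']; omega
  have k1 : ∀ m, ∃ t, pos a t = [] ∧ m ≤ dep a t [] := fun m => by
    induction m with
    | zero => exact ⟨0, rfl, by simp⟩
    | succ m ih =>
      obtain ⟨t, h1, h2⟩ := ih
      obtain ⟨t', h3, h4⟩ := h.exists_gt t
      have := mo (show t + 1 ≤ t' from h4)
      simp only [dep_s', h1, if_true] at this
      exact ⟨t', h3, by omega⟩
  obtain ⟨t, h1, h2⟩ := k1 (pp (a []) k)
  have k2 : ∀ v, pp (a v) (ty a k v) ≤ dep a t v := fun v => by
    induction v with
    | nil => exact h2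
    | cons i u ih =>
      have := flow (a := a) (t := t) i u
      rw [h1, if_neg (by simp)] at this
      have := cn_m (a u) i.succ ih
      rw [← not_lt, lt_pp (hz _), ty]; omega
  refine ⟨t, fun v hv => ?_⟩
  have := k2 v
  rw [dep_0 hv.ge, ← not_lt, lt_pp (hz _), cn_0] at this
  omega

lemma ty_app (i : Fin d) (w : List (Fin d)) : ty a k (w ++ [i]) =
    ty (fun v => a (v ++ [i])) (cn (a []) i.succ (pp (a []) k)) w := by
  induction w with
  | nil => rfl
  | cons j w ih => simp only [List.cons_append, ty, ih]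

end Pool.Agent.H.MP_c4c6a0_pr
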