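import Pool.Agent.H.MP_c4c6a0_pr.A

set_option linter.unusedSectionVars false
set_option linter.unusedVariables false
set_option linter.dupNamespace false

namespace Pool.Agent.H.MP_c4c6a0_pr

open Finset MeasureTheory ProbabilityTheory Measure Filter Topology

lemma blocks {V J X : Type} [MeasurableSpace X] (μ : Measure X) [IsProbabilityMeasure μ] (c : V → J)
    (h : J → V → V) (hc : ∀ j w, c (h j w) = j) :
    iIndepFun (fun j (ω : V → X) w => ω (h j w)) (infinitePi fun _ => μ) := by
  have B : iIndepFun (fun j (ω : V → X) (v : {v // c v = j}) => ω v) (infinitePi fun _ => μ) := by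
    rw [iIndepFun_iff_map_fun_eq_infinitePi_map (by fun_prop)]
    have e1 := map_infinitePi_infinitePi_of_inj (P := fun _ : V => μ)
      (f := fun p : (Σ j, {v // c v = j}) => p.2.1) (Equiv.sigmaFiberEquiv c).injective
    have e2 := infinitePi_map_piCurry (fun j (v : {v // c v = j}) => μ)
    rw [← e1, Measure.map_map (by fun_prop) (by fun_prop)] at e2
    refine e2.trans ?_
    congr 1; funext j
    exact (map_infinitePi_infinitePi_of_inj (P := fun _ : V => μ) Subtype.val_injective).symm
  exact B.comp (fun j x w => x ⟨h j w, hc j w⟩) (by fun_prop)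

variable {d L : ℕ}

/-- Independent uniform shifts. -/
noncomputable def P (d L : ℕ) : Measure (List (Fin d) → Fin L) :=
  Measure.infinitePi fun _ => uniformOn Set.univ

/-- The configuration of the shift model. -/
def cfg (a : ℕ → Fin (d + 1)) (k : List (Fin d) → Fin L) (v : List (Fin d)) (x : ℕ) : Fin (d + 1) :=
  a (x + k v)

def sh (a : ℕ → Fin (d + 1)) (s : ℕ) (x : ℕ) : Fin (d + 1) := a (x + s)

noncomputable def U (a : ℕ → Fin (d + 1)) (s : ℕ) (i : Fin d) (k : ℕ) : ℕ :=
  cn (sh a s) i.succ (pp (sh a s) k)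

def Ex (a : ℕ → Fin (d + 1)) (L n k : ℕ) : Set (List (Fin d) → Fin L) :=
  {ω | ∀ v : List (Fin d), v.length = n → ty (cfg a ω) k v = 0}

def hh : Option (Fin d) → List (Fin d) → List (Fin d)
  | none, _ => []
  | some i, w => w ++ [i]

def SS (a : ℕ → Fin (d + 1)) (n k : ℕ) (s : Fin L) : Option (Fin d) → Set (List (Fin d) → Fin L)
  | none => {ω | ω [] = s}
  | some i => Ex a L n (U a s i k)

variable {a : ℕ → Fin (d + 1)} {n k : ℕ}

lemma Ex_0 : Ex a L 0 k = {_ω | k = 0} := by ext ω; simp [Ex, ty]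

lemma Ex_s : Ex a L (n + 1) k = ⋃ s : Fin L, ⋂ j, (fun ω w => ω (hh j w)) ⁻¹' SS a n k s j := by
  ext ω
  simp only [Set.mem_iUnion, Set.mem_iInter, Set.mem_preimage, Option.forall, SS, hh, Set.mem_ofPred,
    exists_eq_left', Ex]
  refine ⟨fun h i w hw => (ty_app i w).symm.trans (h _ (by simpa)), fun h v hv => ?_⟩
  obtain ⟨w, i, rfl⟩ := (List.eq_nil_or_concat' v).resolve_left (by rintro rfl; simp at hv)
  exact (ty_app i w).trans (h i w (by simpa using hv))

lemma Ex_m (n : ℕ) : ∀ k, MeasurableSet (Ex a L n k) := by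
  induction n with
  | zero => intro k; rw [Ex_0]; exact .const _
  | succ n ih =>
    intro k
    rw [Ex_s]
    refine .iUnion fun s => .iInter fun j => MeasurableSet.preimage ?_ (by fun_prop)
    rcases j with _ | i
    · exact (measurableSet_singleton s).preimage (measurable_pi_apply _)
    · exact ih _

lemma Ex_mono : Monotone fun n => Ex a L n k := fun m n h ω hω v hv => ty_0 hω (hv ▸ h)

variable [NeZero L]

instance : IsProbabilityMeasure (P d L) := by unfold P; infer_instance

lemma P_s : (P d L).real (Ex a L (n + 1) k) =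
    ∑ s : Fin L, (L : ℝ)⁻¹ * ∏ i, (P d L).real (Ex a L n (U a s i k)) := by
  have mS : ∀ (s : Fin L) j, MeasurableSet (SS a n k s j) := fun s j => by
    rcases j with _ | i
    · exact (measurableSet_singleton s).preimage (measurable_pi_apply _)
    · exact Ex_m _ _
  rw [Ex_s, measureReal_iUnion_fintype (fun s s' h => Set.disjoint_left.2 fun ω h1 h2 => h
    ((show ω [] = s from Set.mem_iInter.1 h1 none).symm.trans (Set.mem_iInter.1 h2 none)))
    fun s => .iInter fun j => (mS s j).preimage (by fun_prop)]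
  refine sum_congr rfl fun s _ => ?_
  have B := blocks (uniformOn (Set.univ : Set (Fin L))) (List.getLast? (α := Fin d)) hh
    (by rintro (_ | i) w <;> simp [hh])
  rw [Measure.real, P, B.meas_iInter fun j => ⟨_, mS s j, rfl⟩, ENNReal.toReal_prod,
    Fintype.prod_option]
  congr 1
  · have := infinitePi_map_eval (fun _ : List (Fin d) => uniformOn (Set.univ : Set (Fin L))) []
    have e := congrArg (fun μ => μ {s}) this
    rw [map_apply (by fun_prop) (measurableSet_singleton s), uniformOn_univ] at e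
    refine (congrArg ENNReal.toReal e).trans ?_
    simp
  refine prod_congr rfl fun i _ => ?_
  have := map_infinitePi_infinitePi_of_inj
    (P := fun _ : List (Fin d) => uniformOn (Set.univ : Set (Fin L))) (f := hh (some i))
    (List.append_left_injective [i])
  rw [← map_apply (by fun_prop) (mS s _), this]
  rfl

lemma win (hp : Function.Periodic a L) (r : Fin (d + 1)) (s : ℕ) : cn (sh a s) r L = cn a r L := by
  induction s with
  | zero => rfl
  | succ s ih =>
    have h1 := cn_s (sh a s) r L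
    have h2 : cn (sh a s) r (L + 1) = cn (sh a (s + 1)) r L + if sh a s 0 = r then 1 else 0 := by
      rw [cn, Nat.count_succ']
      congr 2; funext x; simp only [sh]; rw [add_right_comm, add_assoc]
    have h3 : sh a s L = sh a s 0 := by simp only [sh]; rw [add_comm L, hp, zero_add]
    rw [h3] at h1
    omega

lemma cn_av (hp : Function.Periodic a L) (r : Fin (d + 1)) (m : ℕ) :
    ∑ s : Fin L, cn (sh a s) r m = m * cn a r L := by
  induction m with
  | zero => simp [cn_0]
  | succ m ih =>
    simp only [cn_s, sum_add_distrib, ih, add_mul, one_mul]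
    congr 1
    rw [← win hp r m, cn, Nat.count_eq_card_filter_range, card_filter,
      Fin.sum_univ_eq_sum_range fun s => if sh a s m = r then 1 else 0]
    refine sum_congr rfl fun x _ => ?_
    simp [sh, add_comm]

lemma cn_mul (hp : Function.Periodic a L) (r : Fin (d + 1)) (s m : ℕ) :
    cn (sh a s) r (m * L) = m * cn a r L := by
  induction m with
  | zero => simp [cn_0]
  | succ m ih =>
    rw [add_mul, add_mul, one_mul, one_mul, ← ih, ← win hp r (m * L + s), cn, Nat.count_add]
    congr 2; funext x; simp only [sh]; rw [add_comm (m * L), add_assoc]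

lemma zi (hp : Function.Periodic a L) (h : 0 < cn a 0 L) (s : ℕ) : Zi (sh a s) := fun k =>
  ⟨k * L, by rw [cn_mul hp]; exact Nat.le_mul_of_pos_right _ h⟩

lemma sumU (h : Zi (sh a n)) : k + ∑ i, U a n i k = pp (sh a n) k := by
  simpa only [cn_pp h, U] using cn_sum (sh a n) (pp (sh a n) k)

lemma theta (hp : Function.Periodic a L) (h : 0 < cn a 0 L) (h4 : 4 * cn a 0 L ≤ L) :
    ∃ θ : ℝ, 0 < θ ∧ θ < 1 ∧ ∀ k, ∑ s : Fin L, θ ^ pp (sh a s) k ≤ L * θ ^ (2 * k) := by
  have L0 : 0 < L := NeZero.pos L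
  have big : ∀ k, L ≤ k → ∀ s, 2 * k ≤ pp (sh a s) k := fun k hk s => le_of_lt <| by
    rw [lt_pp (zi hp h s)]
    have h1 := cn_m (sh a s) 0 (show 2 * k ≤ (2 * k / L + 1) * L from by
      rw [mul_comm _ L]; exact (Nat.lt_mul_div_succ _ L0).le)
    rw [cn_mul hp] at h1
    have h2 := Nat.mul_le_mul_left (2 * k / L + 1) h4
    have h3 := Nat.div_mul_le_self (2 * k) L
    have h5 : (2 * k / L + 1) * L = 2 * k / L * L + L := by ring
    have h6 : (2 * k / L + 1) * (4 * cn a 0 L) = 4 * ((2 * k / L + 1) * cn a 0 L) := by ring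
    omega
  have mean : ∀ k, 0 < k → 2 * k * L < ∑ s : Fin L, pp (sh a s) k := fun k hk => by
    have e1 : ∀ s M, M * k ≤ k * min M (pp (sh a s) k) + ∑ m ∈ range M, cn (sh a s) 0 m := by
      intro s M
      induction M with
      | zero => simp
      | succ M ih =>
        rw [sum_range_succ, add_mul, one_mul]
        rcases lt_or_ge M (pp (sh a s) k) with h' | h'
        · rw [min_eq_left h'.le] at ih
          rw [min_eq_left h', mul_add]; omega
        · have := not_lt.1 (mt (lt_pp (zi hp h s)).2 h'.not_gt)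
          rw [min_eq_right h'] at ih
          rw [min_eq_right (by omega)]; omega
    have e2 := sum_le_sum fun (s : Fin L) (_ : s ∈ univ) => (e1 s (4 * k + 1)).trans
      (Nat.add_le_add_right (Nat.mul_le_mul_left k (min_le_right _ _)) _)
    rw [sum_add_distrib, Finset.sum_comm, ← mul_sum univ (fun s : Fin L => pp (sh a s) k)] at e2
    simp only [cn_av hp, ← sum_mul, sum_const, card_univ, Fintype.card_fin, smul_eq_mul] at e2
    have e3 := sum_range_id_mul_two (4 * k + 1)
    rw [Nat.add_sub_cancel] at e3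
    have e4 := Nat.mul_le_mul_left (∑ i ∈ range (4 * k + 1), i) h4
    by_contra hn
    have e5 := Nat.mul_le_mul_left k (not_lt.1 hn)
    have e6 := congrArg (· * L) e3
    have e7 := Nat.mul_pos hk L0
    generalize ∑ i ∈ range (4 * k + 1), i = S at *
    linarith
  have ev : ∀ᶠ θ : ℝ in 𝓝[<] 1, ∀ k ∈ range L,
      ∑ s : Fin L, θ ^ pp (sh a s) k ≤ L * θ ^ (2 * k) := by
    refine (eventually_all_finset _).2 fun k _ => ?_
    rcases k.eq_zero_or_pos with rfl | hk
    · simp [pp_0]
    have hd := (HasDerivAt.fun_sum fun (s : Fin L) (_ : s ∈ univ) =>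
      hasDerivAt_pow (pp (sh a s) k) (1 : ℝ)).fun_sub ((hasDerivAt_pow (2 * k) (1 : ℝ)).const_mul (L : ℝ))
    have hm : ((2 * k * L : ℕ) : ℝ) < (∑ s : Fin L, pp (sh a s) k : ℕ) := Nat.cast_lt.2 (mean k hk)
    have := (hasDerivAt_iff_tendsto_slope_left_right.1 hd).1.eventually (lt_mem_nhds (a := 0) (by
      push_cast at hm ⊢; simp only [one_pow, mul_one]; linarith))
    filter_upwards [this, self_mem_nhdsWithin] with θ h1 h2
    rw [slope_def_field] at h1
    have := (div_pos_iff.1 h1).resolve_left fun h => by linarith [h.2, Set.mem_Iio.1 h2]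
    simpa using this.1.le
  obtain ⟨θ, h1, h2⟩ := (ev.and (Ioo_mem_nhdsLT (zero_lt_one' ℝ))).exists
  refine ⟨θ, h2.1, h2.2, fun k => ?_⟩
  rcases lt_or_ge k L with hk | hk
  · exact h1 k (mem_range.2 hk)
  · simpa using sum_le_sum fun (s : Fin L) (_ : s ∈ univ) =>
      pow_le_pow_of_le_one h2.1.le h2.2.le (big k hk s)

theorem trans (hp : Function.Periodic a L) (h : 0 < cn a 0 L) (h4 : 4 * cn a 0 L ≤ L) :
    ∀ᵐ ω ∂P d L, ¬ Rec (cfg a ω) := by
  obtain ⟨θ, t0, t1, ht⟩ := theta hp h h4
  have L0 : (0 : ℝ) < L := Nat.cast_pos.2 (NeZero.pos L)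
  have k1 : ∀ n k, (P d L).real (Ex a L n k) ≤ θ ^ k := fun n => by
    induction n with
    | zero =>
      intro k
      rcases k with _ | k
      · simp
      · simp [Ex_0]; positivity
    | succ n ih =>
      intro k
      rw [P_s, ← mul_sum, inv_mul_le_iff₀ L0]
      refine le_of_mul_le_mul_left ?_ (pow_pos t0 k)
      rw [mul_left_comm, ← pow_add, ← two_mul, mul_sum]
      refine le_trans (sum_le_sum fun s _ => ?_) (ht k)
      rw [← sumU (zi hp h s), pow_add, ← prod_pow_eq_pow_sum]
      exact mul_le_mul_of_nonneg_left (prod_le_prod (fun i _ => measureReal_nonneg) fun i _ => ih _)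
        (pow_pos t0 k).le
  have k2 : ∀ k : ℕ, P d L {ω | ¬¬ Rec (cfg a ω)} ≤ ENNReal.ofReal (θ ^ k) := fun k => by
    refine (measure_mono (t := ⋃ n, Ex a L n k) fun ω hω => Set.mem_iUnion.2
      (of_rec (fun v => zi hp h _) (not_not.1 hω) k)).trans ?_
    rw [Ex_mono.measure_iUnion]
    exact iSup_le fun n => (ENNReal.le_ofReal_iff_toReal_le (measure_ne_top _ _) (pow_pos t0 k).le).2
      (k1 n k)
  exact ae_iff.2 (by simpa using ge_of_tendsto' (ENNReal.tendsto_ofReal
    (tendsto_pow_atTop_nhds_zero_of_lt_one t0.le t1)) k2)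

def ex (x : ℕ) : Fin (3 + 1) :=
  if x % 12 = 1 then 1 else if x % 12 = 3 then 2 else if x % 12 = 5 then 3 else 0

lemma ex_p : Function.Periodic ex 12 := fun x => by simp [ex]
lemma ex_c : cn ex 0 12 = 9 := by decide

theorem recur : ∀ᵐ ω ∂P 3 12, Rec (cfg ex ω) := by
  have z := zi ex_p (by rw [ex_c]; norm_num)
  have e1 : ∀ s k, k ≤ cn (sh ex s) 0 (2 * k) := fun s k => by
    induction k with
    | zero => simp
    | succ k ih =>
      rw [mul_add, mul_one, cn_s, cn_s]
      have : sh ex s (2 * k) = 0 ∨ sh ex s (2 * k + 1) = 0 := by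
        simp only [sh, ex]; split_ifs <;> omega
      rcases this with h | h <;> simp only [h, if_true] <;> omega
  have e2 : ∀ k, ∑ s : Fin 12, ∑ i, U ex s i k ≤ 6 * k := fun k => by
    have h1 := sum_le_sum fun (s : Fin 12) (_ : s ∈ univ) => sum_le_sum fun (i : Fin 3) (_ : i ∈ univ) =>
      cn_m (sh ex s) i.succ (not_lt.1 (mt (lt_pp (z s)).1 (e1 s k).not_gt))
    have h2 := sum_congr rfl fun (s : Fin 12) (_ : s ∈ univ) => cn_sum (sh ex s) (2 * k)
    rw [sum_add_distrib, cn_av ex_p, ex_c, sum_const, card_univ, Fintype.card_fin, smul_eq_mul] at h2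
    exact h1.trans (by omega)
  have k1 : ∀ n k : ℕ, 1 - (k : ℝ) * (1 / 2) ^ n ≤ (P 3 12).real (Ex ex 12 n k) := fun n => by
    induction n with
    | zero =>
      intro k
      rcases k with _ | k
      · simp [Ex_0]
      · simp [Ex_0]
    | succ n ih =>
      intro k
      rw [P_s, ← mul_sum]
      have h1 : ∀ s : Fin 12, 1 - (∑ i, U ex s i k : ℕ) * (1 / 2 : ℝ) ^ n ≤
          ∏ i, (P 3 12).real (Ex ex 12 n (U ex s i k)) := fun s => by
        rw [Fin.prod_univ_three, Fin.sum_univ_three]
        have a0 := ih (U ex s 0 k)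
        have a1 := ih (U ex s 1 k)
        have a2 := ih (U ex s 2 k)
        have b : ∀ i, 0 ≤ (P 3 12).real (Ex ex 12 n (U ex s i k)) ∧
          0 ≤ 1 - (P 3 12).real (Ex ex 12 n (U ex s i k)) := fun i =>
            ⟨measureReal_nonneg, sub_nonneg.2 measureReal_le_one⟩
        have c1 := mul_nonneg (b 0).2 (b 1).2
        have c2 := mul_nonneg (sub_nonneg.2 (mul_le_one₀ (sub_nonneg.1 (b 0).2) (b 1).1
          (sub_nonneg.1 (b 1).2))) (b 2).2
        push_cast
        linarith
      have h2 := sum_le_sum fun s (_ : s ∈ univ) => h1 s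
      rw [sum_sub_distrib, ← sum_mul, ← Nat.cast_sum] at h2
      have h3 := mul_le_mul_of_nonneg_right (Nat.cast_le (α := ℝ).2 (e2 k))
        (show (0 : ℝ) ≤ (1 / 2) ^ n by positivity)
      simp only [sum_const, card_univ, Fintype.card_fin, nsmul_eq_mul] at h2
      push_cast at h2 h3 ⊢
      rw [pow_succ]
      linarith
  have k2 : ∀ k, ∀ᵐ ω ∂P 3 12, ω ∈ ⋃ n, Ex ex 12 n k := fun k => by
    refine (mem_ae_iff_prob_eq_one (.iUnion fun n => Ex_m n k)).2 ((ENNReal.toReal_eq_one_iff _).1
      (le_antisymm measureReal_le_one ?_))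
    have l := ((tendsto_pow_atTop_nhds_zero_of_lt_one (r := (1 / 2 : ℝ)) (by norm_num)
      (by norm_num)).const_mul (k : ℝ)).const_sub 1
    rw [mul_zero, sub_zero] at l
    exact le_of_tendsto' l fun n => (k1 n k).trans (measureReal_mono (Set.subset_iUnion
      (fun n => Ex ex 12 n k) n))
  filter_upwards [ae_all_iff.2 k2] with ω h
  exact rec_of (fun v => z _) fun k => Set.mem_iUnion.1 (h k)

end Pool.Agent.H.MP_c4c6a0_pr
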